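import Pool.Agent.Y956.TS.Signs

/-!
# MP_52aa73_nt: all sign patterns of the Liouville function at almost all tuples of places
-/

set_option autoImplicit false

namespace Pool.Agent.Results.MP_52aa73_nt.SignsAtAlmostAllPlaces

open Finset Filter Topology
open Pool.Agent.Y956.TS (av bessel proj expand pairsG LZ_sub LZ_union LZ_bdd)

/-- the Liouville function -/
def lam (n : ℕ) : ℤ := (-1) ^ (ArithmeticFunction.cardFactors n)

open Classical in
/-- logarithmic density zero: `(1 / log X) Σ_{x ≤ X, x ∈ E} 1 / x → 0` -/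
def LogDensityZero (E : Set ℕ) : Prop :=
  Tendsto (fun X : ℕ => (∑ x ∈ (Icc 1 X).filter (fun x => x ∈ E), 1 / (x : ℝ)) / Real.log X) atTop (𝓝 0)

/-- `s ∈ {0, …, M - 1}^H` is `ε`-good for the scale `x` and the bounded sequence `Φ`: for EVERY sign pattern
`e ∈ {1, -1}^H` the average of `Φ(n)` over the `n ≤ x` with `λ(n + s_j) = e_j` for all `j` is `2^(-H)` times the
average of `Φ(n)` over all `n ≤ x`, up to `ε 2^(-H)` (for `Φ = 1`: the pattern `e` occurs at the places `s` with
frequency `2^(-H) (1 + O(ε))`) -/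
def Good {H M : ℕ} (ε : ℝ) (Φ : ℕ → ℂ) (x : ℕ) (s : Fin H → Fin M) : Prop :=
  ∀ e : Fin H → ℤ, (∀ j, e j = 1 ∨ e j = -1) →
    ‖(1 / (x : ℂ)) * (∑ n ∈ (Icc 1 x).filter (fun n => ∀ j, lam (n + s j) = e j), Φ n) -
      (1 / 2) ^ H * ((1 / (x : ℂ)) * ∑ n ∈ Icc 1 x, Φ n)‖ ≤ ε * (1 / 2) ^ H

open Classical in
/-- For every `ε > 0` there is `κ` such that for all `H` and all `M ≥ κ 4^H`, `M ≥ 1`: outside a set of `x` of
logarithmic density zero, for EVERY 1-bounded sequence `Φ`, all but at most `ε M^H` of the tuples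
`s ∈ {0, …, M - 1}^H` are `ε`-good. -/
theorem result (ε : ℝ) (hε : 0 < ε) : ∃ κ : ℕ, ∀ H M : ℕ, 1 ≤ M → κ * 4 ^ H ≤ M →
    LogDensityZero {x : ℕ | ∃ Φ : ℕ → ℂ, (∀ n, ‖Φ n‖ ≤ 1) ∧ ε * (M : ℝ) ^ H <
      (((univ : Finset (Fin H → Fin M)).filter (fun s => ¬ Good ε Φ x s)).card : ℝ)} := by
  have conv : ∀ E : Set ℕ, Pool.Agent.Y958.U.LZ E → LogDensityZero E := by
    intro E hE
    unfold LogDensityZero
    unfold Pool.Agent.Y958.U.LZ at hE
    refine hE.congr fun X => ?_
    rw [sum_filter]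
  have hlam : ∀ n, lam n = 1 ∨ lam n = -1 := fun n => neg_one_pow_eq_or ℤ _
  have hll : lam = Pool.Agent.H376R2.MR.lam := by
    funext n
    unfold lam Pool.Agent.H376R2.MR.lam
    rfl
  have hlb : ∀ n, |lam n| ≤ 1 := fun n => by
    rcases hlam n with h | h <;> rw [h] <;> simp
  obtain ⟨κ, hκ⟩ := exists_nat_gt (2 / ε ^ 4)
  refine ⟨κ, fun H M hM hMκ => conv _ ?_⟩
  have hM0 : (0 : ℝ) < M := by exact_mod_cast hM
  have hP : (0 : ℝ) < (M : ℝ) ^ H := by positivity
  have h2 : Pool.Agent.Y958.U.LZ {x | ∃ a < M, ∃ b < M, a ≠ b ∧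
      1 / (M : ℝ) < |(1 / (x : ℝ)) * ∑ n ∈ Icc 1 x, (lam (n + a) : ℝ) * (lam (n + b) : ℝ)|} := by
    apply pairsG lam hlb _ _ M _ (by positivity)
    · rw [hll]; exact Pool.Agent.TH823.MRS.lam_flip
    · rw [hll]; exact Pool.Agent.TH823.MRS.expo_lam
  refine LZ_sub ?_ (LZ_union h2 (LZ_bdd {x | x < 1} 1 fun n hn => hn))
  intro x hx
  by_contra hcon
  rw [Set.mem_union, not_or] at hcon
  obtain ⟨hc1, hc3⟩ := hcon
  have hx1 : 1 ≤ x := not_lt.1 hc3
  obtain ⟨Φ, hΦ, hbad⟩ := hx
  have hδ : ∀ a < M, ∀ b < M, a ≠ b → |(1 / (x : ℝ)) * ∑ n ∈ Icc 1 x,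
      (lam (n + a) : ℝ) * (lam (n + b) : ℝ)| ≤ 1 / (M : ℝ) := by
    intro a ha b hb hab
    by_contra h
    exact hc1 ⟨a, ha, b, hb, hab, not_le.1 h⟩
  set u : ℕ → ℕ → ℂ := fun a n => ((lam (n + a) : ℝ) : ℂ) with hu
  have hu1 : ∀ a n, ‖u a n‖ ≤ 1 := fun a n => by
    rw [hu]; beta_reduce
    rw [Complex.norm_real, Real.norm_eq_abs]
    exact_mod_cast hlb (n + a)
  have hK : ∀ Ψ : ℕ → ℂ, (∀ n, ‖Ψ n‖ ≤ 1) →
      ∑ a ∈ range M, ‖av (fun n => Ψ n * u a n) x‖ ≤ Real.sqrt (2 * M) := fun Ψ hΨ =>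
    bessel M x hx1 (fun a n => (lam (n + a) : ℝ)) (fun a n => by exact_mod_cast hlb (n + a)) (1 / (M : ℝ))
      (by positivity) hδ (by rw [mul_one_div, div_self hM0.ne']) Ψ hΨ
  set B : Finset (Fin H → Bool) := univ.filter (fun b => ∃ j, b j = true) with hB
  set G : (Fin H → Fin M) → ℝ := fun s => ∑ b ∈ B,
    ‖av (fun n => Φ n * ∏ j, (if b j = true then u (s j) n else 1)) x‖ with hG
  have hG0 : ∀ s, 0 ≤ G s := fun s => sum_nonneg fun _ _ => norm_nonneg _
  have hsum : M * ∑ s, G s ≤ 2 ^ H * (Real.sqrt (2 * M) * M ^ H) := by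
    rw [hG]
    rw [sum_comm, mul_sum]
    refine (sum_le_sum fun b hb => proj M x u hu1 _ hK H b (mem_filter.1 hb).2 Φ hΦ).trans ?_
    rw [sum_const, nsmul_eq_mul]
    apply mul_le_mul_of_nonneg_right _ (by positivity)
    have : B.card ≤ 2 ^ H := by
      refine (card_filter_le _ _).trans (le_of_eq ?_)
      rw [card_univ, Fintype.card_fun, Fintype.card_bool, Fintype.card_fin]
    exact_mod_cast this
  -- a good criterion
  have hgood : ∀ s, G s ≤ ε → Good ε Φ x s := by
    intro s hs e he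
    have e1 : ∀ n, (if (∀ j, lam (n + s j) = e j) then Φ n else 0) =
        (1 / 2) ^ H * ∑ b : Fin H → Bool, (∏ j, (if b j = true then ((e j : ℝ) : ℂ) else 1)) *
          (Φ n * ∏ j, (if b j = true then u (s j) n else 1)) := by
      intro n
      have e2 : ∑ b : Fin H → Bool, (∏ j, (if b j = true then ((e j : ℝ) : ℂ) else 1)) *
          (Φ n * ∏ j, (if b j = true then u (s j) n else 1)) =
          Φ n * ∏ j, (1 + ((e j : ℝ) : ℂ) * u (s j) n) := by
        rw [expand, mul_sum]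
        apply sum_congr rfl
        intro b _
        rw [mul_left_comm, ← prod_mul_distrib]
        congr 1
        apply prod_congr rfl
        intro j _
        split_ifs <;> simp
      rw [e2]
      split_ifs with h
      · have e3 : ∏ j : Fin H, (1 + ((e j : ℝ) : ℂ) * u (s j) n) = 2 ^ H := by
          have : ∀ j ∈ (univ : Finset (Fin H)), (1 + ((e j : ℝ) : ℂ) * u (s j) n) = 2 := by
            intro j _
            rw [hu]; beta_reduce
            rw [h j]
            rcases he j with h' | h' <;> rw [h'] <;> norm_num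
          rw [prod_congr rfl this, prod_const, card_univ, Fintype.card_fin]
        rw [e3, mul_comm (Φ n), ← mul_assoc, ← mul_pow]
        norm_num
      · push Not at h
        obtain ⟨j, hj⟩ := h
        have e3 : ∏ j : Fin H, (1 + ((e j : ℝ) : ℂ) * u (s j) n) = 0 := by
          apply prod_eq_zero (mem_univ j)
          rw [hu]; beta_reduce
          rcases he j with h' | h' <;> rcases hlam (n + s j) with h'' | h''
          · exact absurd (h''.trans h'.symm) hj
          · rw [h', h'']; norm_num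
          · rw [h', h'']; norm_num
          · exact absurd (h''.trans h'.symm) hj
        rw [e3]; simp
    have e4 : (1 / (x : ℂ)) * (∑ n ∈ (Icc 1 x).filter (fun n => ∀ j, lam (n + s j) = e j), Φ n) -
        (1 / 2) ^ H * ((1 / (x : ℂ)) * ∑ n ∈ Icc 1 x, Φ n) =
        (1 / 2) ^ H * ∑ b ∈ B, (∏ j, (if b j = true then ((e j : ℝ) : ℂ) else 1)) *
          av (fun n => Φ n * ∏ j, (if b j = true then u (s j) n else 1)) x := by
      rw [sum_filter]
      simp only [e1]
      have e5 : (1 / (x : ℂ)) * ∑ n ∈ Icc 1 x, ((1 / 2) ^ H * ∑ b : Fin H → Bool,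
          (∏ j, (if b j = true then ((e j : ℝ) : ℂ) else 1)) *
          (Φ n * ∏ j, (if b j = true then u (s j) n else 1))) =
          (1 / 2) ^ H * ∑ b : Fin H → Bool, (∏ j, (if b j = true then ((e j : ℝ) : ℂ) else 1)) *
          av (fun n => Φ n * ∏ j, (if b j = true then u (s j) n else 1)) x := by
        unfold av
        rw [← mul_sum, sum_comm, mul_left_comm]
        congr 1
        rw [mul_sum]
        apply sum_congr rfl
        intro b _
        rw [← mul_sum]
        ring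
      rw [e5, ← mul_sub]
      congr 1
      have e6 := sum_filter_add_sum_filter_not (univ : Finset (Fin H → Bool)) (fun b => ∃ j, b j = true)
        (fun b => (∏ j, (if b j = true then ((e j : ℝ) : ℂ) else 1)) *
          av (fun n => Φ n * ∏ j, (if b j = true then u (s j) n else 1)) x)
      have e7 : (univ : Finset (Fin H → Bool)).filter (fun b => ¬ ∃ j, b j = true) = {fun _ => false} := by
        ext b
        rw [mem_filter, mem_singleton]
        constructor
        · rintro ⟨_, h⟩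
          funext j
          push Not at h
          simpa using h j
        · rintro rfl
          exact ⟨mem_univ _, by simp⟩
      rw [e7, sum_singleton] at e6
      rw [← e6]
      have e8 : (∏ j : Fin H, (if (fun _ : Fin H => false) j = true then ((e j : ℝ) : ℂ) else 1)) *
          av (fun n => Φ n * ∏ j : Fin H, (if (fun _ : Fin H => false) j = true then u (s j) n else 1)) x =
          (1 / (x : ℂ)) * ∑ n ∈ Icc 1 x, Φ n := by
        unfold av
        simp
      rw [e8]
      ring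
    rw [e4, norm_mul, norm_pow]
    have e9 : ‖(1 / 2 : ℂ)‖ = 1 / 2 := by norm_num
    rw [e9, mul_comm]
    apply mul_le_mul_of_nonneg_right _ (by positivity)
    refine le_trans ?_ hs
    rw [hG]; beta_reduce
    refine (norm_sum_le _ _).trans (sum_le_sum fun b _ => ?_)
    rw [norm_mul, norm_prod]
    apply mul_le_of_le_one_left (norm_nonneg _)
    apply prod_le_one (fun _ _ => norm_nonneg _)
    intro j _
    split_ifs
    · rcases he j with h' | h' <;> rw [h'] <;> simp
    · simp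
  -- Markov
  have hmk : ε * (((univ : Finset (Fin H → Fin M)).filter (fun s => ¬ Good ε Φ x s)).card : ℝ) ≤ ∑ s, G s := by
    calc ε * (((univ : Finset (Fin H → Fin M)).filter (fun s => ¬ Good ε Φ x s)).card : ℝ)
        = ∑ s ∈ (univ : Finset (Fin H → Fin M)).filter (fun s => ¬ Good ε Φ x s), ε := by
          rw [sum_const, nsmul_eq_mul, mul_comm]
      _ ≤ ∑ s ∈ (univ : Finset (Fin H → Fin M)).filter (fun s => ¬ Good ε Φ x s), G s := by
          apply sum_le_sum
          intro s hs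
          by_contra h
          exact (mem_filter.1 hs).2 (hgood s (not_le.1 h).le)
      _ ≤ ∑ s, G s := sum_le_sum_of_subset_of_nonneg (filter_subset _ _) fun s _ _ => hG0 s
  have hsq : (2 : ℝ) ^ H * Real.sqrt (2 * M) ≤ ε ^ 2 * M := by
    apply le_of_sq_le_sq _ (by positivity)
    rw [mul_pow, Real.sq_sqrt (by positivity)]
    have h4 : ((2 : ℝ) ^ H) ^ 2 = 4 ^ H := by rw [← pow_mul, mul_comm, pow_mul]; norm_num
    rw [h4]
    have h5 : (κ : ℝ) * 4 ^ H ≤ M := by exact_mod_cast hMκ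
    rw [div_lt_iff₀ (by positivity)] at hκ
    have h6 : (2 : ℝ) * 4 ^ H ≤ ε ^ 4 * M := by
      calc (2 : ℝ) * 4 ^ H ≤ (κ * ε ^ 4) * 4 ^ H := mul_le_mul_of_nonneg_right hκ.le (by positivity)
        _ = ε ^ 4 * (κ * 4 ^ H) := by ring
        _ ≤ ε ^ 4 * M := mul_le_mul_of_nonneg_left h5 (by positivity)
    nlinarith
  have h7 : (M : ℝ) * (ε * (((univ : Finset (Fin H → Fin M)).filter (fun s => ¬ Good ε Φ x s)).card : ℝ)) ≤
      (ε ^ 2 * M) * M ^ H := by
    calc _ ≤ (M : ℝ) * ∑ s, G s := mul_le_mul_of_nonneg_left hmk hM0.le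
      _ ≤ 2 ^ H * (Real.sqrt (2 * M) * M ^ H) := hsum
      _ = (2 ^ H * Real.sqrt (2 * M)) * M ^ H := by ring
      _ ≤ _ := mul_le_mul_of_nonneg_right hsq (by positivity)
  have h8 : (M : ℝ) * (ε * (ε * (M : ℝ) ^ H)) < (M : ℝ) * (ε *
      (((univ : Finset (Fin H → Fin M)).filter (fun s => ¬ Good ε Φ x s)).card : ℝ)) :=
    mul_lt_mul_of_pos_left (mul_lt_mul_of_pos_left hbad hε) hM0
  nlinarith

end Pool.Agent.Results.MP_52aa73_nt.SignsAtAlmostAllPlaces
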